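import Pool.Agent.Q192.PK.Stm2

/-!
# PK-SK11: Birkhoff sums of the normalizing potential along two shadowing orbits
-/

set_option autoImplicit false

open Filter Topology Set Metric

namespace Pool.Agent.Q95.PK

open Pool.Agent.Q192.PK Pool.Agent.H721R2

universe u v

section

variable {X : Type u} {E : Type v} [MetricSpace X] [NormedAddCommGroup E] [InnerProductSpace ℝ E]
  [FiniteDimensional ℝ E]

omit [FiniteDimensional ℝ E] in
lemma le_D (S : HypSys X E) (x : X) (v : E) (hv : v ∈ S.Vu x) : 1 * ‖v‖ ≤ ‖S.D x v‖ := by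
  have h1 := S.contrU (S.g x) (S.D x v) (S.mapU x v hv)
  rw [S.invU x v hv] at h1
  have hb : S.b ≤ 1 := by
    have h2 := S.one_le_K
    have h3 := S.Kb
    have h4 := S.b_nonneg
    nlinarith
  have h5 : S.b * ‖S.D x v‖ ≤ 1 * ‖S.D x v‖ := mul_le_mul_of_nonneg_right hb (norm_nonneg _)
  linarith

lemma map_eq_of_inj {D : ℕ} (U V : Submodule ℝ E) (T : E →ₗ[ℝ] E)
    (hU : Module.finrank ℝ U = D) (hV : Module.finrank ℝ V = D)
    (hm : ∀ w ∈ U, T w ∈ V) (hi : ∀ w ∈ U, T w = 0 → w = 0) : U.map T = V := by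
  have h1 : U.map T ≤ V := by
    rintro _ ⟨w, hw, rfl⟩
    exact hm w hw
  apply Submodule.eq_of_le_of_finrank_eq h1
  rw [hV]
  have h2 : Function.Injective (T.domRestrict U) := by
    rw [← LinearMap.ker_eq_bot, LinearMap.ker_eq_bot']
    rintro ⟨w, hw⟩ h
    have := hi w hw (by simpa using h)
    exact Subtype.ext this
  have h3 := LinearMap.finrank_range_of_inj h2
  have h4 : LinearMap.range (T.domRestrict U) = U.map T := by
    rw [LinearMap.domRestrict, LinearMap.range_comp, Submodule.range_subtype]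
  rw [h4, hU] at h3
  exact h3

theorem geo1 (n : ℕ) : ∑ k ∈ Finset.range n, ((1 : ℝ) / 2) ^ k ≤ 2 := by
  have h := sum_geometric_two_le n
  simpa using h

theorem geo2 (n : ℕ) : ∑ k ∈ Finset.range n, ((1 : ℝ) / 2) ^ (n - k) ≤ 2 := by
  have h1 : ∑ k ∈ Finset.range n, ((1 : ℝ) / 2) ^ (n - k) =
      ∑ k ∈ Finset.range n, ((1 : ℝ) / 2) ^ (k + 1) := by
    rw [← Finset.sum_range_reflect]
    apply Finset.sum_congr rfl
    intro k hk
    rw [Finset.mem_range] at hk
    congr 1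
    omega
  rw [h1]
  have h2 : ∑ k ∈ Finset.range n, ((1 : ℝ) / 2) ^ (k + 1) ≤ ∑ k ∈ Finset.range n, ((1 : ℝ) / 2) ^ k := by
    apply Finset.sum_le_sum
    intro k _
    rw [pow_succ]
    have : (0 : ℝ) ≤ (1 / 2) ^ k := by positivity
    linarith
  exact h2.trans (geo1 n)

end

theorem sK11 (h : SK1.{v}) : SK11.{u, v} := by
  intro X _ E _ _ _ S C₀ D hC₀ hD hdim
  obtain ⟨hchain, hup, hlo, hpert⟩ := h E
  refine ⟨2 * C₀ + 2, ?_⟩
  intro c n x p J hc hc4 hJ
  obtain ⟨hJ1, hJ2⟩ := hJ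
  have hDpos : (0 : ℝ) < D := by exact_mod_cast hD
  -- the lower bounds
  have hJlo : ∀ k ≤ n, ∀ w ∈ S.Vu (S.g^[k] p), (3 / 4) * ‖w‖ ≤ ‖J k w‖ := by
    intro k hk w hw
    have h1 := (hJ1 k hk w hw).2
    have h2 : ‖w‖ ≤ ‖J k w‖ + ‖J k w - w‖ := by
      have := norm_sub_le (J k w) (J k w - w)
      rwa [sub_sub_cancel] at this
    have h3 : c * ‖w‖ ≤ 1 / 4 * ‖w‖ := mul_le_mul_of_nonneg_right hc4 (norm_nonneg _)
    linarith
  have hJup : ∀ k ≤ n, ∀ w ∈ S.Vu (S.g^[k] p), ‖J k w‖ ≤ (5 / 4) * ‖w‖ := by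
    intro k hk w hw
    have h1 := (hJ1 k hk w hw).2
    have h2 : ‖J k w‖ ≤ ‖w‖ + ‖J k w - w‖ := by
      have := norm_add_le w (J k w - w)
      rwa [add_sub_cancel] at this
    have h3 : c * ‖w‖ ≤ 1 / 4 * ‖w‖ := mul_le_mul_of_nonneg_right hc4 (norm_nonneg _)
    linarith
  set a : ℕ → ℝ := fun k => jac (J k) (S.Vu (S.g^[k] p)) with ha
  set jj : X → ℝ := fun y => jac (S.D y) (S.Vu y) with hjj
  have hjjpos : ∀ y, 0 < jj y := by
    intro y
    have h1 := hlo (S.D y) (S.Vu y) 1 zero_le_one (fun v hv => le_D S y v hv)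
    rw [one_pow] at h1
    exact lt_of_lt_of_le one_pos h1
  have halo : ∀ k ≤ n, (3 / 4 : ℝ) ^ D ≤ a k := by
    intro k hk
    have h1 := hlo (J k) (S.Vu (S.g^[k] p)) (3 / 4) (by norm_num) (hJlo k hk)
    rwa [hdim] at h1
  have haup : ∀ k ≤ n, a k ≤ (5 / 4 : ℝ) ^ D := by
    intro k hk
    have h1 := hup (J k) (S.Vu (S.g^[k] p)) (5 / 4) (by norm_num) (hJup k hk)
    rwa [hdim] at h1
  have hapos : ∀ k ≤ n, 0 < a k := fun k hk => lt_of_lt_of_le (by positivity) (halo k hk)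
  set δ : ℕ → ℝ := fun k => C₀ * c * ((1 / 2) ^ k + (1 / 2) ^ (n - k)) with hδ
  have hδ0 : ∀ k, 0 ≤ δ k := by
    intro k
    simp only [hδ]
    positivity
  have hit : ∀ (y : X) (k : ℕ), S.g^[k + 1] y = S.g (S.g^[k] y) := fun y k =>
    Function.iterate_succ_apply' _ _ _
  -- the main inequality
  have hmain : ∀ k < n, a (k + 1) * jj (S.g^[k] p) ≤
      (1 + 2 * δ k) ^ D * (jj (S.g^[k] x) * a k) := by
    intro k hk
    set U : Submodule ℝ E := S.Vu (S.g^[k] p) with hU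
    have hmapD : U.map (S.D (S.g^[k] p)) = S.Vu (S.g^[k + 1] p) := by
      apply map_eq_of_inj (D := D)
      · exact hdim _
      · exact hdim _
      · intro w hw
        rw [hit]
        exact S.mapU _ w hw
      · intro w hw h0
        have h1 := le_D S _ w hw
        rw [h0, norm_zero, one_mul] at h1
        exact norm_le_zero_iff.mp h1
    have hmapJ : U.map (J k) = S.Vu (S.g^[k] x) := by
      apply map_eq_of_inj (D := D)
      · exact hdim _
      · exact hdim _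
      · intro w hw
        exact (hJ1 k hk.le w hw).1
      · intro w hw h0
        have h1 := hJlo k hk.le w hw
        rw [h0, norm_zero] at h1
        have h2 : ‖w‖ ≤ 0 := by linarith
        exact norm_le_zero_iff.mp h2
    set T : E →ₗ[ℝ] E := S.D (S.g^[k] x) ∘ₗ J k with hT
    set F : E →ₗ[ℝ] E := J (k + 1) ∘ₗ S.D (S.g^[k] p) - T with hF
    have hTF : T + F = J (k + 1) ∘ₗ S.D (S.g^[k] p) := by
      rw [hF]; abel
    have hT1 : ∀ w ∈ U, 1 / 2 * ‖w‖ ≤ ‖T w‖ := by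
      intro w hw
      have h1 := hJlo k hk.le w hw
      have h2 := le_D S _ (J k w) (hJ1 k hk.le w hw).1
      have h3 : T w = S.D (S.g^[k] x) (J k w) := rfl
      rw [h3]
      have := norm_nonneg w
      linarith
    have hF1 : ∀ w ∈ U, ‖F w‖ ≤ δ k * ‖w‖ := by
      intro w hw
      exact hJ2 k hk w hw
    have h1 := hpert T F U (δ k) (hδ0 k) hT1 hF1
    rw [hTF, hchain, hT, hchain, hmapD, hmapJ, hU, hdim] at h1
    exact h1
  have hlog : ∀ k < n, Real.log (jj (S.g^[k] p)) - Real.log (jj (S.g^[k] x)) ≤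
      2 * D * δ k + (Real.log (a k) - Real.log (a (k + 1))) := by
    intro k hk
    have h1 := hmain k hk
    have hp1 := hapos (k + 1) hk
    have hp2 := hapos k hk.le
    have hd1 : 0 < 1 + 2 * δ k := by have := hδ0 k; linarith
    have h2 := Real.log_le_log (mul_pos hp1 (hjjpos _)) h1
    rw [Real.log_mul hp1.ne' (hjjpos _).ne', Real.log_mul (pow_pos hd1 D).ne'
      (mul_pos (hjjpos _) hp2).ne', Real.log_mul (hjjpos _).ne' hp2.ne', Real.log_pow] at h2
    have h3 : Real.log (1 + 2 * δ k) ≤ 2 * δ k := by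
      have := Real.log_le_sub_one_of_pos hd1
      linarith
    have h4 : (D : ℝ) * Real.log (1 + 2 * δ k) ≤ D * (2 * δ k) :=
      mul_le_mul_of_nonneg_left h3 hDpos.le
    linarith
  have hsum : ∑ k ∈ Finset.range n, (Real.log (jj (S.g^[k] p)) - Real.log (jj (S.g^[k] x))) ≤
      ∑ k ∈ Finset.range n, (2 * D * δ k + (Real.log (a k) - Real.log (a (k + 1)))) :=
    Finset.sum_le_sum fun k hk => hlog k (Finset.mem_range.mp hk)
  rw [Finset.sum_sub_distrib, Finset.sum_add_distrib, Finset.sum_range_sub', ← Finset.mul_sum]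
    at hsum
  have hδsum : ∑ k ∈ Finset.range n, δ k ≤ C₀ := by
    simp only [hδ]
    rw [← Finset.mul_sum, Finset.sum_add_distrib]
    have h1 := geo1 n
    have h2 := geo2 n
    have h3 : C₀ * c * (∑ k ∈ Finset.range n, ((1 : ℝ) / 2) ^ k +
        ∑ k ∈ Finset.range n, ((1 : ℝ) / 2) ^ (n - k)) ≤ C₀ * c * 4 :=
      mul_le_mul_of_nonneg_left (by linarith) (by positivity)
    have h4 : C₀ * c * 4 ≤ C₀ * 1 := by
      rw [mul_assoc]
      exact mul_le_mul_of_nonneg_left (by linarith) hC₀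
    linarith
  have ha0 : Real.log (a 0) ≤ D := by
    have h1 := Real.log_le_log (hapos 0 (Nat.zero_le n)) (haup 0 (Nat.zero_le n))
    rw [Real.log_pow] at h1
    have h2 : Real.log (5 / 4) ≤ 1 := by
      have := Real.log_le_sub_one_of_pos (show (0 : ℝ) < 5 / 4 by norm_num)
      linarith
    nlinarith
  have han : -(D : ℝ) ≤ Real.log (a n) := by
    have h1 := Real.log_le_log (by positivity) (halo n le_rfl)
    rw [Real.log_pow] at h1
    have h2 : -1 ≤ Real.log (3 / 4) := by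
      have h3 := Real.log_le_sub_one_of_pos (show (0 : ℝ) < 4 / 3 by norm_num)
      have h4 : Real.log (4 / 3) = - Real.log (3 / 4) := by
        rw [← Real.log_inv]; norm_num
      rw [h4] at h3
      linarith
    nlinarith
  have hfin : ∑ k ∈ Finset.range n, Real.log (jj (S.g^[k] p)) ≤
      ∑ k ∈ Finset.range n, Real.log (jj (S.g^[k] x)) + (D : ℝ) * (2 * C₀ + 2) := by
    have h1 : 2 * (D : ℝ) * ∑ k ∈ Finset.range n, δ k ≤ 2 * D * C₀ :=
      mul_le_mul_of_nonneg_left hδsum (by positivity)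
    linarith
  have hphi : ∀ y, phi S D y = 1 / D * Real.log (jj y) := fun y => rfl
  simp only [hphi]
  rw [← Finset.mul_sum, ← Finset.mul_sum]
  have h1 : 1 / (D : ℝ) * ∑ k ∈ Finset.range n, Real.log (jj (S.g^[k] p)) ≤
      1 / (D : ℝ) * (∑ k ∈ Finset.range n, Real.log (jj (S.g^[k] x)) + (D : ℝ) * (2 * C₀ + 2)) :=
    mul_le_mul_of_nonneg_left hfin (by positivity)
  have h2 : 1 / (D : ℝ) * ((D : ℝ) * (2 * C₀ + 2)) = 2 * C₀ + 2 := by
    field_simp
  rw [mul_add, h2] at h1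
  exact h1

end Pool.Agent.Q95.PK
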